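import Pool.Agent.L7h88.MW.Stm

/-!
# Project MW, part ABL: partial summation in the mean square
-/

set_option autoImplicit false

namespace Pool.Agent.L7h53.MW

open Finset MeasureTheory Filter Topology
open Pool.Agent.H376R2.MR (er)
open Pool.Agent.L7h88.MW

/-- Abel summation. -/
theorem abel (W a : ℕ → ℂ) (N1 m : ℕ) (h : N1 ≤ m) :
    ∑ n ∈ Ioc N1 m, W n * a n = W m * ∑ n ∈ Ioc N1 m, a n -
      ∑ n ∈ Ioo N1 m, (W (n + 1) - W n) * ∑ j ∈ Ioc N1 n, a j := by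
  have key : ∑ n ∈ Ioc N1 m, W n * a n = W m * ∑ n ∈ Ioc N1 m, a n -
      ∑ n ∈ Ico N1 m, (W (n + 1) - W n) * ∑ j ∈ Ioc N1 n, a j := by
    induction m, h using Nat.le_induction with
    | base => simp
    | succ m hm ih =>
      rw [Finset.sum_Ioc_succ_top (by omega), Finset.sum_Ioc_succ_top (by omega), ih,
        Finset.sum_Ico_succ_top hm]
      ring
  rw [key]
  congr 1
  symm
  refine Finset.sum_subset ?_ ?_
  · intro n hn
    rw [Finset.mem_Ioo] at hn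
    rw [Finset.mem_Ico]
    omega
  · intro n hn hn'
    rw [Finset.mem_Ico] at hn
    rw [Finset.mem_Ioo] at hn'
    have : n = N1 := by omega
    subst this
    simp

theorem cs (s : Finset ℕ) (ρ b : ℕ → ℝ) (B0 B1 a : ℝ) (h0 : 0 ≤ B0) (hρ : ∀ n, 0 ≤ ρ n)
    (h1 : ∑ n ∈ s, ρ n ≤ B1) :
    (B0 * a + ∑ n ∈ s, ρ n * b n) ^ 2 ≤ (B0 + B1) * (B0 * a ^ 2 + ∑ n ∈ s, ρ n * b n ^ 2) := by
  set T := ∑ n ∈ s, ρ n * b n
  set Q := ∑ n ∈ s, ρ n * b n ^ 2
  set P := ∑ n ∈ s, ρ n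
  have hP : 0 ≤ P := Finset.sum_nonneg fun n _ => hρ n
  have hQ : 0 ≤ Q := Finset.sum_nonneg fun n _ => mul_nonneg (hρ n) (sq_nonneg _)
  have hT : T ^ 2 ≤ P * Q := by
    refine Finset.sum_sq_le_sum_mul_sum_of_sq_le_mul s (fun n _ => hρ n)
      (fun n _ => mul_nonneg (hρ n) (sq_nonneg _)) fun n _ => le_of_eq ?_
    ring
  have h2 : 2 * a * T ≤ Q + P * a ^ 2 := by
    have h3 : 0 ≤ Q + P * a ^ 2 := by positivity
    refine le_of_abs_le (abs_le_of_sq_le_sq ?_ h3)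
    nlinarith [sq_nonneg (Q - P * a ^ 2), mul_le_mul_of_nonneg_left hT (sq_nonneg a)]
  have h4 : (B0 * a + T) ^ 2 ≤ (B0 + P) * (B0 * a ^ 2 + Q) := by
    nlinarith [mul_le_mul_of_nonneg_left h2 h0]
  refine h4.trans ?_
  exact mul_le_mul_of_nonneg_right (by linarith) (by positivity)

theorem ds_cont (f : ℕ → ℂ) (s : Finset ℕ) : Continuous fun η : ℝ => DS f s η := by
  unfold DS er
  refine continuous_finsetSum _ fun n _ => ?_
  fun_prop

theorem s_ABL : S_ABL := by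
  intro f W ρ N1 N2 x L B0 B1 E hN hL h0 hE hρ hW hW0 hW1 hB1 hS
  have hxL : x ≤ x + L := by linarith
  have hP : ∑ n ∈ Ioo N1 N2, ρ n ≤ B1 := by
    refine le_trans (Finset.sum_le_sum_of_subset_of_nonneg ?_ fun n _ _ => hρ n) hB1
    intro n hn
    rw [Finset.mem_Ioo] at hn
    rw [Finset.mem_Ioc]
    omega
  have hB1' : 0 ≤ B1 := le_trans (Finset.sum_nonneg fun n _ => hρ n) hP
  rcases hN.eq_or_lt with rfl | hlt
  · simp only [Finset.Ioc_self, Finset.sum_empty, norm_zero]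
    simp only [ne_eq, OfNat.ofNat_ne_zero, not_false_eq_true, zero_pow,
      intervalIntegral.integral_zero]
    positivity
  have hcont : Continuous fun η : ℝ => ∑ n ∈ Ioc N1 N2, W n η * (f n * er (-η) (Real.log n)) := by
    refine continuous_finsetSum _ fun n _ => (hW n).mul ?_
    unfold er
    fun_prop
  have hpt : ∀ η ∈ Set.Icc x (x + L),
      ‖∑ n ∈ Ioc N1 N2, W n η * (f n * er (-η) (Real.log n))‖ ^ 2 ≤
        (B0 + B1) * (B0 * ‖DS f (Ioc N1 N2) η‖ ^ 2 +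
          ∑ n ∈ Ioo N1 N2, ρ n * ‖DS f (Ioc N1 n) η‖ ^ 2) := by
    intro η hη
    refine le_trans ?_ (cs (Ioo N1 N2) ρ (fun n => ‖DS f (Ioc N1 n) η‖) B0 B1
      ‖DS f (Ioc N1 N2) η‖ h0 hρ hP)
    refine pow_le_pow_left₀ (norm_nonneg _) ?_ 2
    rw [abel (fun n => W n η) (fun n => f n * er (-η) (Real.log n)) N1 N2 hN]
    refine (norm_sub_le _ _).trans (add_le_add ?_ ?_)
    · rw [norm_mul]
      exact mul_le_mul_of_nonneg_right
        (hW0 N2 (Finset.mem_Ioc.2 ⟨hlt, le_rfl⟩) η hη) (norm_nonneg _)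
    · refine (norm_sum_le _ _).trans (Finset.sum_le_sum fun n hn => ?_)
      rw [Finset.mem_Ioo] at hn
      rw [norm_mul]
      exact mul_le_mul_of_nonneg_right (hW1 n hn.1 hn.2 η hη) (norm_nonneg _)
  have hc1 : ∀ m, Continuous fun η : ℝ => ‖DS f (Ioc N1 m) η‖ ^ 2 := fun m =>
    (ds_cont f _).norm.pow 2
  have hc2 : Continuous fun η : ℝ => (B0 + B1) * (B0 * ‖DS f (Ioc N1 N2) η‖ ^ 2 +
          ∑ n ∈ Ioo N1 N2, ρ n * ‖DS f (Ioc N1 n) η‖ ^ 2) := by
    refine continuous_const.mul ((continuous_const.mul (hc1 _)).add ?_)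
    exact continuous_finsetSum _ fun n _ => continuous_const.mul (hc1 n)
  refine (intervalIntegral.integral_mono_on hxL ((hcont.norm.pow 2).intervalIntegrable _ _)
    (hc2.intervalIntegrable _ _) hpt).trans ?_
  have e1 : Continuous fun η : ℝ => B0 * ‖DS f (Ioc N1 N2) η‖ ^ 2 := continuous_const.mul (hc1 _)
  have e2 : ∀ n, Continuous fun η : ℝ => ρ n * ‖DS f (Ioc N1 n) η‖ ^ 2 := fun n =>
    continuous_const.mul (hc1 n)
  have e3 : Continuous fun η : ℝ => ∑ n ∈ Ioo N1 N2, ρ n * ‖DS f (Ioc N1 n) η‖ ^ 2 :=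
    continuous_finsetSum _ fun n _ => e2 n
  rw [intervalIntegral.integral_const_mul, intervalIntegral.integral_add
    (e1.intervalIntegrable _ _) (e3.intervalIntegrable _ _),
    intervalIntegral.integral_finset_sum fun n _ => (e2 n).intervalIntegrable _ _]
  simp only [intervalIntegral.integral_const_mul]
  have h5 : ∑ n ∈ Ioo N1 N2, ρ n * ∫ η in x..(x + L), ‖DS f (Ioc N1 n) η‖ ^ 2 ≤ B1 * E := by
    calc _ ≤ ∑ n ∈ Ioo N1 N2, ρ n * E := by
          refine Finset.sum_le_sum fun n hn => mul_le_mul_of_nonneg_left ?_ (hρ n)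
          rw [Finset.mem_Ioo] at hn
          exact hS n hn.1.le hn.2.le
      _ = (∑ n ∈ Ioo N1 N2, ρ n) * E := by rw [Finset.sum_mul]
      _ ≤ B1 * E := mul_le_mul_of_nonneg_right hP hE
  have h6 : B0 * ∫ η in x..(x + L), ‖DS f (Ioc N1 N2) η‖ ^ 2 ≤ B0 * E :=
    mul_le_mul_of_nonneg_left (hS N2 hN le_rfl) h0
  calc _ ≤ (B0 + B1) * (B0 * E + B1 * E) :=
        mul_le_mul_of_nonneg_left (add_le_add h6 h5) (by positivity)
    _ = (B0 + B1) ^ 2 * E := by ring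

end Pool.Agent.L7h53.MW
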