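import Pool.Agent.L7h53.MW.Tii

/-!
# Project MW, part LP: local mean squares of the primes
-/

set_option autoImplicit false

namespace Pool.Agent.L7h53.MW

open Finset MeasureTheory Filter Topology
open Pool.Agent.H376R2.MR (er)
open Pool.Agent.Y957.VK (lamw)
open Pool.Agent.L7h88.MW

/-- the proper prime powers -/
noncomputable def rr (n : ℕ) : ℝ :=
  (ArithmeticFunction.vonMangoldt n - if n.Prime then Real.log n else 0) / Real.log n

theorem num_nonneg (n : ℕ) :
    0 ≤ ArithmeticFunction.vonMangoldt n - if n.Prime then Real.log n else 0 := by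
  split_ifs with h
  · rw [ArithmeticFunction.vonMangoldt_apply_prime h, sub_self]
  · rw [sub_zero]
    exact ArithmeticFunction.vonMangoldt_nonneg

theorem rr_nonneg (n : ℕ) : 0 ≤ rr n := div_nonneg (num_nonneg n) (Real.log_natCast_nonneg n)

theorem rr_le_one (n : ℕ) : rr n ≤ 1 := by
  unfold rr
  rcases eq_or_lt_of_le (Real.log_natCast_nonneg n) with h | h
  · rw [← h, div_zero]
    exact zero_le_one
  · rw [div_le_one h]
    have h1 : ArithmeticFunction.vonMangoldt n ≤ Real.log n :=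
      ArithmeticFunction.vonMangoldt_le_log
    have h2 : 0 ≤ (if n.Prime then Real.log (n : ℝ) else 0) := by
      split_ifs
      · exact h.le
      · exact le_rfl
    linarith

theorem pw_aux (l v p : ℝ) (h : l ≠ 0) : ((p : ℝ) : ℂ) - ((1 / l : ℝ) : ℂ) =
    ((1 / l : ℝ) : ℂ) * ((v : ℂ) - 1) - (((v - p * l) / l : ℝ) : ℂ) := by
  have h2 : (l : ℂ) ≠ 0 := by exact_mod_cast h
  push_cast
  field_simp
  ring

theorem pw_eq (n : ℕ) (h : 3 ≤ n) : pw n = ((1 / Real.log n : ℝ) : ℂ) * lamw n - (rr n : ℂ) := by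
  have h1 : (1 : ℝ) ≤ Real.log n := one_le_log h
  unfold pw lamw rr
  by_cases hp : n.Prime
  · rw [if_pos hp, if_pos hp]
    have := pw_aux (Real.log n) (ArithmeticFunction.vonMangoldt n) 1 (by linarith)
    rw [one_mul, Complex.ofReal_one] at this
    exact this
  · rw [if_neg hp, if_neg hp]
    have := pw_aux (Real.log n) (ArithmeticFunction.vonMangoldt n) 0 (by linarith)
    rw [zero_mul, Complex.ofReal_zero] at this
    exact this

theorem sum_rr : ∃ C : ℝ, 0 ≤ C ∧ ∀ N1 N2 : ℕ, 3 ≤ N1 → ∑ n ∈ Ioc N1 N2, rr n ^ 2 ≤ C * √(N2 : ℝ) := by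
  obtain ⟨C, hC⟩ := Chebyshev.psi_sub_theta_le_mul_sqrt
  have hC0 : 0 ≤ C := by
    have h1 := hC 1
    have h2 := Chebyshev.theta_le_psi 1
    rw [Real.sqrt_one] at h1
    linarith
  refine ⟨C, hC0, fun N1 N2 h3 => ?_⟩
  have h1 : ∀ n ∈ Ioc N1 N2, rr n ^ 2 ≤
      ArithmeticFunction.vonMangoldt n - if n.Prime then Real.log n else 0 := by
    intro n hn
    rw [Finset.mem_Ioc] at hn
    have h4 := rr_nonneg n
    have h5 := rr_le_one n
    have h6 : (1 : ℝ) ≤ Real.log n := one_le_log (by omega)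
    calc rr n ^ 2 ≤ rr n := by nlinarith
      _ ≤ _ := div_le_self (num_nonneg n) h6
  refine (Finset.sum_le_sum h1).trans ?_
  have h2 : ∑ n ∈ Ioc N1 N2, (ArithmeticFunction.vonMangoldt n - if n.Prime then Real.log n else 0) ≤
      ∑ n ∈ Ioc 0 N2, (ArithmeticFunction.vonMangoldt n - if n.Prime then Real.log n else 0) :=
    Finset.sum_le_sum_of_subset_of_nonneg
      (Finset.Ioc_subset_Ioc_left (Nat.zero_le _)) fun n _ _ => num_nonneg n
  refine h2.trans ?_
  have h4 := hC (N2 : ℝ)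
  have h5 : Chebyshev.psi (N2 : ℝ) - Chebyshev.theta (N2 : ℝ) =
      ∑ n ∈ Ioc 0 N2, (ArithmeticFunction.vonMangoldt n - if n.Prime then Real.log n else 0) := by
    rw [Chebyshev.psi, Chebyshev.theta, Nat.floor_natCast, Finset.sum_sub_distrib,
      ← Finset.sum_filter]
  rw [← h5]
  exact h4

theorem tel (N1 N2 : ℕ) (h : N1 ≤ N2) (h3 : 2 ≤ N1) :
    ∑ n ∈ Ioc N1 N2, |1 / Real.log n - 1 / Real.log ((n : ℝ) + 1)| =
      1 / Real.log ((N1 : ℝ) + 1) - 1 / Real.log ((N2 : ℝ) + 1) := by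
  induction N2, h using Nat.le_induction with
  | base => simp
  | succ m hm ih =>
    rw [Finset.sum_Ioc_succ_top (by omega), ih]
    have h4 : 1 / Real.log ((((m + 1 : ℕ) : ℝ)) + 1) ≤ 1 / Real.log ((m + 1 : ℕ) : ℝ) := by
      have h5 : 0 < Real.log ((m + 1 : ℕ) : ℝ) := by
        apply Real.log_pos
        have : (3 : ℝ) ≤ ((m + 1 : ℕ) : ℝ) := by exact_mod_cast (by omega : 3 ≤ m + 1)
        linarith
      apply one_div_le_one_div_of_le h5
      apply Real.log_le_log (by positivity)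
      linarith
    rw [abs_of_nonneg (by linarith)]
    push_cast
    ring

theorem s_LP (h1 : S_ABL) (h2 : S_MVT) (h3 : S_LL) : S_LP := by
  intro A C
  obtain ⟨D, N0, hD, hN0, hLL⟩ := h3 A C
  obtain ⟨Cm, hCm, hm⟩ := h2
  obtain ⟨Cr, hCr, hr⟩ := sum_rr
  obtain ⟨Nl, hl⟩ := ev_L C
  obtain ⟨Na, ha⟩ := ev_log A (1 / 2) 1 (by norm_num) one_pos
  refine ⟨2 * (4 * D) + 2 * (Cm * 17 * (Cr * 4)), max N0 (max Nl (max Na 3)), by positivity,
    hN0.trans (le_max_left _ _), ?_⟩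
  intro N N1 N2 x L hN hN1 hN12 hN2 hL hL2 hx
  have hN0' : N0 ≤ N := (le_max_left _ _).trans hN
  have hN' := (le_max_right _ _).trans hN
  have hNl : Nl ≤ N := (le_max_left _ _).trans hN'
  have hN'' := (le_max_right _ _).trans hN'
  have hNa : Na ≤ N := (le_max_left _ _).trans hN''
  have hN3 : 3 ≤ N := (le_max_right _ _).trans hN''
  have hlog : 1 ≤ Real.log N := one_le_log hN3
  have hlog0 : 0 < Real.log N := by linarith
  have hNpos : (0 : ℝ) < N := by
    have : (3 : ℝ) ≤ N := by exact_mod_cast hN3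
    linarith
  have hLN : L ≤ N := hL2.trans (hl N hNl)
  have hxL : x ≤ x + L := by linarith
  have hE0 : 0 ≤ D * (N : ℝ) ^ 2 / Real.log N ^ A := by positivity
  -- first part
  have hI1 : ∫ η in x..(x + L), ‖∑ n ∈ Ioc N1 N2, ((1 / Real.log n : ℝ) : ℂ) *
      (lamw n * er (-η) (Real.log n))‖ ^ 2 ≤ 4 * D * (N ^ 2 / Real.log N ^ A) := by
    have h5 := h1 lamw (fun n _ => ((1 / Real.log n : ℝ) : ℂ))
      (fun n => |1 / Real.log n - 1 / Real.log ((n : ℝ) + 1)|) N1 N2 x L 1 1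
      (D * (N : ℝ) ^ 2 / Real.log N ^ A) hN12 hL zero_le_one hE0 (fun n => abs_nonneg _)
      (fun n => continuous_const) ?_ ?_ ?_ ?_
    · refine h5.trans (le_of_eq ?_)
      ring
    · intro n hn η _
      rw [Finset.mem_Ioc] at hn
      have h6 : (1 : ℝ) ≤ Real.log n := one_le_log (by omega)
      rw [Complex.norm_real, Real.norm_eq_abs, abs_of_nonneg (by positivity)]
      rw [div_le_one (by linarith)]
      exact h6
    · intro n _ _ η _
      rw [← Complex.ofReal_sub, Complex.norm_real, Real.norm_eq_abs, abs_sub_comm]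
      push_cast
      exact le_rfl
    · rw [tel N1 N2 hN12 (by omega)]
      have h6 : (1 : ℝ) ≤ Real.log ((N1 : ℝ) + 1) := by
        have := one_le_log (N := N1 + 1) (by omega)
        push_cast at this
        exact this
      have h7 : (1 : ℝ) ≤ Real.log ((N2 : ℝ) + 1) := by
        have := one_le_log (N := N2 + 1) (by omega)
        push_cast at this
        exact this
      have h8 : 1 / Real.log ((N1 : ℝ) + 1) ≤ 1 := by
        rw [div_le_one (by linarith)]
        exact h6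
      have h9 : 0 ≤ 1 / Real.log ((N2 : ℝ) + 1) := by positivity
      linarith
    · intro m hm1 hm2
      exact hLL N N1 m x L hN0' hN1 hm1 (hm2.trans hN2) hL hL2 hx
  -- second part
  have hI2 : ∫ η in x..(x + L), ‖DS (fun n => (rr n : ℂ)) (Ioc N1 N2) η‖ ^ 2 ≤
      Cm * 17 * (Cr * 4) * (N ^ 2 / Real.log N ^ A) := by
    have h5 := hm (fun n => (rr n : ℂ)) (Ioc N1 N2) (16 * N) x L (by
      have : (3 : ℝ) ≤ N := by exact_mod_cast hN3
      linarith) (fun n hn => by
      rw [Finset.mem_Ioc] at hn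
      refine ⟨by omega, ?_⟩
      exact_mod_cast hn.2.trans hN2) hL
    refine h5.trans ?_
    have h6 : ∑ n ∈ Ioc N1 N2, ‖((rr n : ℝ) : ℂ)‖ ^ 2 ≤ Cr * (4 * √(N : ℝ)) := by
      calc ∑ n ∈ Ioc N1 N2, ‖((rr n : ℝ) : ℂ)‖ ^ 2 = ∑ n ∈ Ioc N1 N2, rr n ^ 2 := by
            refine Finset.sum_congr rfl fun n _ => ?_
            rw [Complex.norm_real, Real.norm_eq_abs, sq_abs]
        _ ≤ Cr * √(N2 : ℝ) := hr N1 N2 (by omega)
        _ ≤ Cr * (4 * √(N : ℝ)) := by
            apply mul_le_mul_of_nonneg_left _ hCr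
            have h7 : (N2 : ℝ) ≤ 4 ^ 2 * N := by
              have : (N2 : ℝ) ≤ 16 * N := by exact_mod_cast hN2
              linarith
            calc √(N2 : ℝ) ≤ √(4 ^ 2 * (N : ℝ)) := Real.sqrt_le_sqrt h7
              _ = 4 * √(N : ℝ) := by
                rw [Real.sqrt_mul (by norm_num), Real.sqrt_sq (by norm_num)]
    have h7 : Real.log N ^ A ≤ √(N : ℝ) := by
      have := ha N hNa
      rwa [one_mul, ← Real.sqrt_eq_rpow] at this
    have hA : 0 < Real.log N ^ A := by positivity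
    have h8 : (N : ℝ) * √(N : ℝ) ≤ N ^ 2 / Real.log N ^ A := by
      rw [le_div_iff₀ hA]
      calc (N : ℝ) * √(N : ℝ) * Real.log N ^ A ≤ (N : ℝ) * √(N : ℝ) * √(N : ℝ) :=
            mul_le_mul_of_nonneg_left h7 (by positivity)
        _ = (N : ℝ) * (√(N : ℝ) * √(N : ℝ)) := by ring
        _ = N ^ 2 := by
            rw [Real.mul_self_sqrt hNpos.le]
            ring
    calc Cm * (L + 16 * N) * ∑ n ∈ Ioc N1 N2, ‖((rr n : ℝ) : ℂ)‖ ^ 2
        ≤ Cm * (17 * N) * (Cr * (4 * √(N : ℝ))) := by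
          apply mul_le_mul _ h6 (Finset.sum_nonneg fun n _ => sq_nonneg _) (by positivity)
          apply mul_le_mul_of_nonneg_left _ (by positivity)
          linarith
      _ = Cm * 17 * (Cr * 4) * ((N : ℝ) * √(N : ℝ)) := by ring
      _ ≤ _ := mul_le_mul_of_nonneg_left h8 (by positivity)
  have hpt : ∀ η ∈ Set.Icc x (x + L), ‖DS pw (Ioc N1 N2) η‖ ^ 2 ≤
      2 * ‖∑ n ∈ Ioc N1 N2, ((1 / Real.log n : ℝ) : ℂ) * (lamw n * er (-η) (Real.log n))‖ ^ 2 +
        2 * ‖DS (fun n => (rr n : ℂ)) (Ioc N1 N2) η‖ ^ 2 := by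
    intro η _
    have h5 : DS pw (Ioc N1 N2) η =
        ∑ n ∈ Ioc N1 N2, ((1 / Real.log n : ℝ) : ℂ) * (lamw n * er (-η) (Real.log n)) -
        DS (fun n => (rr n : ℂ)) (Ioc N1 N2) η := by
      unfold DS
      rw [← Finset.sum_sub_distrib]
      refine Finset.sum_congr rfl fun n hn => ?_
      rw [Finset.mem_Ioc] at hn
      rw [pw_eq n (by omega)]
      ring
    rw [h5]
    have h6 : ∀ a b : ℂ, ‖a - b‖ ^ 2 ≤ 2 * ‖a‖ ^ 2 + 2 * ‖b‖ ^ 2 := by
      intro a b
      have h7 := norm_sub_le a b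
      nlinarith [norm_nonneg (a - b), norm_nonneg a, norm_nonneg b, sq_nonneg (‖a‖ - ‖b‖)]
    exact h6 _ _
  have c1 : Continuous fun η : ℝ => 2 * ‖∑ n ∈ Ioc N1 N2, ((1 / Real.log n : ℝ) : ℂ) *
      (lamw n * er (-η) (Real.log n))‖ ^ 2 := by
    refine continuous_const.mul (Continuous.pow (Continuous.norm ?_) 2)
    refine continuous_finsetSum _ fun n _ => ?_
    unfold er
    fun_prop
  have c2 : Continuous fun η : ℝ => 2 * ‖DS (fun n => (rr n : ℂ)) (Ioc N1 N2) η‖ ^ 2 :=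
    continuous_const.mul ((ds_cont _ _).norm.pow 2)
  have c3 : Continuous fun η : ℝ => 2 * ‖∑ n ∈ Ioc N1 N2, ((1 / Real.log n : ℝ) : ℂ) *
      (lamw n * er (-η) (Real.log n))‖ ^ 2 + 2 * ‖DS (fun n => (rr n : ℂ)) (Ioc N1 N2) η‖ ^ 2 :=
    c1.add c2
  refine (intervalIntegral.integral_mono_on hxL (((ds_cont _ _).norm.pow 2).intervalIntegrable _ _)
    (c3.intervalIntegrable _ _) hpt).trans ?_
  rw [intervalIntegral.integral_add (c1.intervalIntegrable _ _) (c2.intervalIntegrable _ _),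
    intervalIntegral.integral_const_mul, intervalIntegral.integral_const_mul]
  have h16 : (2 * (4 * D) + 2 * (Cm * 17 * (Cr * 4))) * (N : ℝ) ^ 2 / Real.log N ^ A =
      2 * (4 * D * (N ^ 2 / Real.log N ^ A)) +
        2 * (Cm * 17 * (Cr * 4) * (N ^ 2 / Real.log N ^ A)) := by ring
  rw [h16]
  linarith

end Pool.Agent.L7h53.MW
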