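import Pool.Agent.L7h53.MW.Abl

/-!
# Project MW, part TII: the type II sums
-/

set_option autoImplicit false

namespace Pool.Agent.L7h53.MW

open Finset MeasureTheory Filter Topology
open Pool.Agent.H376R2.MR (er)
open Pool.Agent.L7h88.MW

theorem ev_log (C : ℕ) (s ε : ℝ) (hs : 0 < s) (hε : 0 < ε) :
    ∃ N0 : ℕ, ∀ N : ℕ, N0 ≤ N → Real.log N ^ C ≤ ε * (N : ℝ) ^ s := by
  have h := (isLittleO_log_rpow_rpow_atTop (C : ℝ) hs).def hε
  obtain ⟨a, ha⟩ := eventually_atTop.1 h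
  refine ⟨max ⌈a⌉₊ 1, fun N hN => ?_⟩
  have h1 : a ≤ N := (Nat.le_ceil a).trans (by exact_mod_cast (le_max_left _ _).trans hN)
  have h2 : (1 : ℝ) ≤ N := by exact_mod_cast (le_max_right _ _).trans hN
  have h3 := ha N h1
  rw [Real.norm_eq_abs, Real.norm_eq_abs, Real.rpow_natCast,
    abs_of_nonneg (pow_nonneg (Real.log_nonneg h2) C),
    abs_of_nonneg (Real.rpow_nonneg (by linarith) s)] at h3
  exact h3

theorem ev_L (C : ℕ) : ∃ N0 : ℕ, ∀ N : ℕ, N0 ≤ N → √(N : ℝ) * Real.log N ^ C ≤ N := by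
  obtain ⟨N0, h⟩ := ev_log C (1 / 2) 1 (by norm_num) one_pos
  refine ⟨N0, fun N hN => ?_⟩
  have h1 := h N hN
  rw [one_mul, ← Real.sqrt_eq_rpow] at h1
  calc √(N : ℝ) * Real.log N ^ C ≤ √(N : ℝ) * √(N : ℝ) :=
        mul_le_mul_of_nonneg_left h1 (Real.sqrt_nonneg _)
    _ = N := Real.mul_self_sqrt (Nat.cast_nonneg N)

theorem one_le_log {N : ℕ} (h : 3 ≤ N) : 1 ≤ Real.log N := by
  rw [Real.le_log_iff_exp_le (by positivity)]
  have h1 := Real.exp_one_lt_d9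
  have h2 : (3 : ℝ) ≤ N := by exact_mod_cast h
  linarith

theorem nb_le (N B : ℕ) (h : 32 ≤ N) : (nb N B : ℝ) ≤ 5 * Real.log N ^ (B + 1) := by
  have hl : 1 ≤ Real.log N := one_le_log (by omega)
  have h1 : Real.log (32 * N) ≤ 2 * Real.log N := by
    rw [Real.log_mul (by norm_num) (by positivity), two_mul]
    have : Real.log 32 ≤ Real.log N := Real.log_le_log (by norm_num) (by exact_mod_cast h)
    linarith
  have h0 : 0 ≤ Real.log (32 * N) := by
    apply Real.log_nonneg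
    have : (32 : ℝ) ≤ N := by exact_mod_cast h
    linarith
  have hB : 1 ≤ Real.log N ^ B := one_le_pow₀ hl
  have h2 : (nb N B : ℝ) ≤ 2 * Real.log (32 * N) * Real.log N ^ B + 1 := by
    unfold nb
    exact (Nat.ceil_lt_add_one (by positivity)).le
  have h3 : 1 ≤ Real.log N ^ (B + 1) := one_le_pow₀ hl
  have h4 : 2 * Real.log (32 * N) * Real.log N ^ B ≤ 4 * Real.log N ^ (B + 1) := by
    calc 2 * Real.log (32 * N) * Real.log N ^ B ≤ 2 * (2 * Real.log N) * Real.log N ^ B := by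
          gcongr
      _ = 4 * Real.log N ^ (B + 1) := by ring
  linarith

theorem sq_sum2 {ι : Type} (s : Finset ι) (f : ι → ι → ℂ) :
    ‖∑ i ∈ s, ∑ j ∈ s, f i j‖ ^ 2 ≤ (s.card : ℝ) ^ 2 * ∑ i ∈ s, ∑ j ∈ s, ‖f i j‖ ^ 2 := by
  rw [← Finset.sum_product', ← Finset.sum_product']
  have h1 : ‖∑ x ∈ s ×ˢ s, f x.1 x.2‖ ^ 2 ≤ (∑ x ∈ s ×ˢ s, ‖f x.1 x.2‖) ^ 2 :=
    pow_le_pow_left₀ (norm_nonneg _) (norm_sum_le _ _) 2
  refine h1.trans ?_
  refine sq_sum_le_card_mul_sum_sq.trans ?_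
  rw [Finset.card_product]
  push_cast
  rw [sq]

theorem s_TII (h1 : S_MVT) (h2 : S_BOX) (h3 : S_DEC) (h4 : S_ERR) : S_TII := by
  intro A C
  obtain ⟨Cm, hCm, hm⟩ := h1
  obtain ⟨B0, hB0⟩ := h4 A
  obtain ⟨De, Ne, hDe, he⟩ := hB0 (B0 + 1) (by omega)
  obtain ⟨Db, K, Nb, hDb, hb⟩ := h2 (A + 4 * (B0 + 1) + 4) C (B0 + 1)
  obtain ⟨Nd, hd⟩ := h3 (B0 + 1) (by omega)
  obtain ⟨Nl, hl⟩ := ev_L C
  set B := B0 + 1 with hBdef
  refine ⟨2 * (625 * Db) + 2 * (Cm * 65 * (2 * De)), K, max Ne (max Nb (max Nd (max Nl 32))),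
    by positivity, ?_⟩
  intro N N1 N2 V x L hN hN1 hN12 hN2 hV1 hV2 hL hL2 hη
  have hNe : Ne ≤ N := (le_max_left _ _).trans hN
  have hN' := (le_max_right _ _).trans hN
  have hNb : Nb ≤ N := (le_max_left _ _).trans hN'
  have hN'' := (le_max_right _ _).trans hN'
  have hNd : Nd ≤ N := (le_max_left _ _).trans hN''
  have hN3 := (le_max_right _ _).trans hN''
  have hNl : Nl ≤ N := (le_max_left _ _).trans hN3
  have hN32 : 32 ≤ N := (le_max_right _ _).trans hN3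
  have hlog : 1 ≤ Real.log N := one_le_log (by omega)
  have hlog0 : 0 < Real.log N := by linarith
  have hNpos : (0 : ℝ) < N := by
    have : (32 : ℝ) ≤ N := by exact_mod_cast hN32
    linarith
  have hN1' : (1 : ℝ) ≤ N := by
    have : (32 : ℝ) ≤ N := by exact_mod_cast hN32
    linarith
  have hVpos : 1 ≤ V := by
    have h5 : (1 : ℝ) ≤ (N : ℝ) ^ (1 / 21 : ℝ) := Real.one_le_rpow hN1' (by norm_num)
    have h6 : (1 : ℝ) ≤ V := h5.trans hV1
    exact_mod_cast h6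
  obtain ⟨r, hr1, hr2, hr3⟩ := hd N N1 N2 V hNd hN1 hN12 hN2 hVpos
  have hLN : L ≤ N := hL2.trans (hl N hNl)
  have hxL : x ≤ x + L := by linarith
  -- the boxes
  set box : ℕ → ℕ → ℝ → ℂ := fun i j η =>
    PM N B V i η * PQ N B V j η * PE N B N1 N2 (i + j) η with hbox
  have hboxc : ∀ i j, Continuous (box i j) := by
    intro i j
    exact ((ds_cont _ _).mul (ds_cont _ _)).mul (ds_cont _ _)
  have hrc : Continuous fun η : ℝ => DS r (Icc 1 (64 * N)) η := ds_cont _ _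
  have hI1 : ∀ i j, ∫ η in x..(x + L), ‖box i j η‖ ^ 2 ≤
      Db * N ^ 2 / Real.log N ^ (A + 4 * B + 4) := fun i j =>
    hb N N1 N2 V i j x L hNb hN1 hN12 hN2 hV1 hV2 hL hL2 hη
  -- the error
  have hI2 : ∫ η in x..(x + L), ‖DS r (Icc 1 (64 * N)) η‖ ^ 2 ≤
      Cm * 65 * (2 * De) * (N ^ 2 / Real.log N ^ A) := by
    have h5 := hm r (Icc 1 (64 * N)) (64 * N) x L (by linarith) (fun n hn => by
      rw [Finset.mem_Icc] at hn
      exact ⟨hn.1, by exact_mod_cast hn.2⟩) hL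
    refine h5.trans ?_
    have h6 : ∑ n ∈ Icc 1 (64 * N), ‖r n‖ ^ 2 ≤ 2 * (De * N / Real.log N ^ A) := by
      have h7 := he N N1 hNe hN1 (by omega)
      have h8 := he N N2 hNe (by omega) hN2
      rw [Finset.sum_filter] at h7 h8
      calc ∑ n ∈ Icc 1 (64 * N), ‖r n‖ ^ 2 ≤ ∑ n ∈ Icc 1 (64 * N),
            ((if (N1 : ℝ) < n ∧ (n : ℝ) ≤ kap N B ^ 2 * N1 then
                ((n.divisors.card : ℝ) * Real.log n) ^ 2 else 0) +
              (if (N2 : ℝ) < n ∧ (n : ℝ) ≤ kap N B ^ 2 * N2 then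
                ((n.divisors.card : ℝ) * Real.log n) ^ 2 else 0)) := by
            refine Finset.sum_le_sum fun n _ => ?_
            have h9 : ‖r n‖ ^ 2 ≤ ((n.divisors.card : ℝ) * Real.log n) ^ 2 :=
              pow_le_pow_left₀ (norm_nonneg _) (hr1 n) 2
            by_cases h10 : r n = 0
            · rw [h10]
              simp only [norm_zero, ne_eq, OfNat.ofNat_ne_zero, not_false_eq_true, zero_pow]
              positivity
            · rcases hr2 n h10 with h11 | h11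
              · rw [if_pos h11]
                have : 0 ≤ (if (N2 : ℝ) < n ∧ (n : ℝ) ≤ kap N B ^ 2 * N2 then
                  ((n.divisors.card : ℝ) * Real.log n) ^ 2 else 0) := by positivity
                linarith
              · rw [if_pos h11]
                have : 0 ≤ (if (N1 : ℝ) < n ∧ (n : ℝ) ≤ kap N B ^ 2 * N1 then
                  ((n.divisors.card : ℝ) * Real.log n) ^ 2 else 0) := by positivity
                linarith
        _ ≤ _ := by
            rw [Finset.sum_add_distrib]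
            linarith
    calc Cm * (L + 64 * N) * ∑ n ∈ Icc 1 (64 * N), ‖r n‖ ^ 2
        ≤ Cm * (65 * N) * (2 * (De * N / Real.log N ^ A)) := by
          apply mul_le_mul _ h6 (Finset.sum_nonneg fun n _ => sq_nonneg _) (by positivity)
          apply mul_le_mul_of_nonneg_left _ (by positivity)
          linarith
      _ = Cm * 65 * (2 * De) * (N ^ 2 / Real.log N ^ A) := by ring
  -- pointwise
  set s := range (nb N B)
  have hpt : ∀ η ∈ Set.Icc x (x + L), ‖DS (bV V) (Ioc N1 N2) η‖ ^ 2 ≤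
      2 * (((nb N B : ℕ) : ℝ) ^ 2 * ∑ i ∈ s, ∑ j ∈ s, ‖box i j η‖ ^ 2) +
        2 * ‖DS r (Icc 1 (64 * N)) η‖ ^ 2 := by
    intro η _
    rw [hr3 η]
    have h5 := sq_sum2 s fun i j => box i j η
    rw [Finset.card_range] at h5
    have h6 : ∀ a b : ℂ, ‖a + b‖ ^ 2 ≤ 2 * ‖a‖ ^ 2 + 2 * ‖b‖ ^ 2 := by
      intro a b
      have h7 := norm_add_le a b
      nlinarith [norm_nonneg (a + b), norm_nonneg a, norm_nonneg b, sq_nonneg (‖a‖ - ‖b‖)]
    refine (h6 _ _).trans ?_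
    have h7 : ‖∑ i ∈ s, ∑ j ∈ s, PM N B V i η * PQ N B V j η * PE N B N1 N2 (i + j) η‖ ^ 2 ≤
      ((nb N B : ℕ) : ℝ) ^ 2 * ∑ i ∈ s, ∑ j ∈ s, ‖box i j η‖ ^ 2 := h5
    linarith
  have c1 : ∀ i j, Continuous fun η : ℝ => ‖box i j η‖ ^ 2 := fun i j => (hboxc i j).norm.pow 2
  have c2 : ∀ i, Continuous fun η : ℝ => ∑ j ∈ s, ‖box i j η‖ ^ 2 := fun i =>
    continuous_finsetSum _ fun j _ => c1 i j
  have c3 : Continuous fun η : ℝ => ∑ i ∈ s, ∑ j ∈ s, ‖box i j η‖ ^ 2 :=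
    continuous_finsetSum _ fun i _ => c2 i
  have c4 : Continuous fun η : ℝ => 2 * (((nb N B : ℕ) : ℝ) ^ 2 *
      ∑ i ∈ s, ∑ j ∈ s, ‖box i j η‖ ^ 2) := continuous_const.mul (continuous_const.mul c3)
  have c5 : Continuous fun η : ℝ => 2 * ‖DS r (Icc 1 (64 * N)) η‖ ^ 2 :=
    continuous_const.mul (hrc.norm.pow 2)
  have c6 : Continuous fun η : ℝ => 2 * (((nb N B : ℕ) : ℝ) ^ 2 *
      ∑ i ∈ s, ∑ j ∈ s, ‖box i j η‖ ^ 2) + 2 * ‖DS r (Icc 1 (64 * N)) η‖ ^ 2 := c4.add c5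
  refine (intervalIntegral.integral_mono_on hxL (((ds_cont _ _).norm.pow 2).intervalIntegrable _ _)
    (c6.intervalIntegrable _ _) hpt).trans ?_
  rw [intervalIntegral.integral_add (c4.intervalIntegrable _ _) (c5.intervalIntegrable _ _),
    intervalIntegral.integral_const_mul, intervalIntegral.integral_const_mul,
    intervalIntegral.integral_const_mul,
    intervalIntegral.integral_finsetSum fun i _ => (c2 i).intervalIntegrable _ _]
  have h8 : ∑ i ∈ s, ∫ η in x..(x + L), ∑ j ∈ s, ‖box i j η‖ ^ 2 ≤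
      ((nb N B : ℕ) : ℝ) ^ 2 * (Db * N ^ 2 / Real.log N ^ (A + 4 * B + 4)) := by
    have h9 : ∀ i ∈ s, ∫ η in x..(x + L), ∑ j ∈ s, ‖box i j η‖ ^ 2 ≤
        ((nb N B : ℕ) : ℝ) * (Db * N ^ 2 / Real.log N ^ (A + 4 * B + 4)) := by
      intro i _
      rw [intervalIntegral.integral_finsetSum fun j _ => (c1 i j).intervalIntegrable _ _]
      refine (Finset.sum_le_sum fun j _ => hI1 i j).trans ?_
      rw [Finset.sum_const, Finset.card_range, nsmul_eq_mul]
    refine (Finset.sum_le_sum h9).trans ?_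
    rw [Finset.sum_const, Finset.card_range, nsmul_eq_mul]
    apply le_of_eq
    ring
  have hnb := nb_le N B hN32
  have hX0 : 0 ≤ Db * (N : ℝ) ^ 2 / Real.log N ^ (A + 4 * B + 4) := by positivity
  have h10 : ((nb N B : ℕ) : ℝ) ^ 2 * (((nb N B : ℕ) : ℝ) ^ 2 *
      (Db * N ^ 2 / Real.log N ^ (A + 4 * B + 4))) ≤ 625 * Db * (N ^ 2 / Real.log N ^ A) := by
    have h11 : ((nb N B : ℕ) : ℝ) ^ 4 ≤ (5 * Real.log N ^ (B + 1)) ^ 4 :=
      pow_le_pow_left₀ (Nat.cast_nonneg _) hnb 4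
    calc ((nb N B : ℕ) : ℝ) ^ 2 * (((nb N B : ℕ) : ℝ) ^ 2 *
        (Db * N ^ 2 / Real.log N ^ (A + 4 * B + 4))) = ((nb N B : ℕ) : ℝ) ^ 4 *
        (Db * N ^ 2 / Real.log N ^ (A + 4 * B + 4)) := by ring
      _ ≤ (5 * Real.log N ^ (B + 1)) ^ 4 * (Db * N ^ 2 / Real.log N ^ (A + 4 * B + 4)) :=
          mul_le_mul_of_nonneg_right h11 hX0
      _ = 625 * Db * (N ^ 2 / Real.log N ^ A) := by
          have h12 : Real.log N ^ (A + 4 * B + 4) = Real.log N ^ A * (Real.log N ^ (B + 1)) ^ 4 := by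
            rw [← pow_mul, ← pow_add]
            congr 1
            ring
          rw [h12]
          have h13 : Real.log N ^ A ≠ 0 := by positivity
          have h14 : Real.log N ^ (B + 1) ≠ 0 := by positivity
          field_simp
          ring
  have h15 := mul_le_mul_of_nonneg_left h8 (sq_nonneg ((nb N B : ℕ) : ℝ))
  have h16 : (2 * (625 * Db) + 2 * (Cm * 65 * (2 * De))) * (N : ℝ) ^ 2 / Real.log N ^ A =
      2 * (625 * Db * (N ^ 2 / Real.log N ^ A)) +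
        2 * (Cm * 65 * (2 * De) * (N ^ 2 / Real.log N ^ A)) := by ring
  rw [h16]
  linarith

end Pool.Agent.L7h53.MW
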