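import Pool.Agent.L7h88.MW.Stm

/-!
# Project MW, part VAU: Vaughan's identity
-/

set_option autoImplicit false

namespace Pool.Agent.L7h53.MW

open Finset
open Pool.Agent.L7h88.MW

/-- the part `≤ V` -/
noncomputable def lo (f : ArithmeticFunction ℝ) (V : ℕ) : ArithmeticFunction ℝ :=
  ⟨fun n => if n ≤ V then f n else 0, by simp⟩

/-- the part `> V` -/
noncomputable def hi (f : ArithmeticFunction ℝ) (V : ℕ) : ArithmeticFunction ℝ :=
  ⟨fun n => if V < n then f n else 0, by simp⟩

theorem lo_add_hi (f : ArithmeticFunction ℝ) (V : ℕ) : lo f V + hi f V = f := by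
  ext n
  show (if n ≤ V then f n else 0) + (if V < n then f n else 0) = f n
  split_ifs <;> first | omega | simp

theorem lo_apply (f : ArithmeticFunction ℝ) (V n : ℕ) : lo f V n = if n ≤ V then f n else 0 := rfl

theorem hi_apply (f : ArithmeticFunction ℝ) (V n : ℕ) : hi f V n = if V < n then f n else 0 := rfl

open ArithmeticFunction in
/-- the Moebius function -/
noncomputable abbrev muR : ArithmeticFunction ℝ := ((moebius : ArithmeticFunction ℤ) : ArithmeticFunction ℝ)

/-- von Mangoldt -/
noncomputable abbrev LamR : ArithmeticFunction ℝ := ArithmeticFunction.vonMangoldt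

open ArithmeticFunction in
theorem vau0 (V : ℕ) : LamR + (lo muR V * lo LamR V) * (zeta : ArithmeticFunction ℝ) =
    lo LamR V + lo muR V * ArithmeticFunction.log
    + hi muR V * (hi LamR V * (zeta : ArithmeticFunction ℝ)) := by
  have h1 : muR * (zeta : ArithmeticFunction ℝ) = 1 := coe_moebius_mul_coe_zeta
  have h2 : LamR * (zeta : ArithmeticFunction ℝ) = ArithmeticFunction.log :=
    vonMangoldt_mul_zeta
  have h3 := lo_add_hi muR V
  have h4 := lo_add_hi LamR V
  have e1 : hi muR V = muR - lo muR V := eq_sub_of_add_eq' h3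
  have e2 : hi LamR V = LamR - lo LamR V := eq_sub_of_add_eq' h4
  rw [e1, e2, ← h2]
  linear_combination (lo LamR V - LamR) * h1

theorem conv_apply (f g : ArithmeticFunction ℝ) (n : ℕ) :
    (f * g) n = ∑ d ∈ n.divisors, f d * g (n / d) := by
  rw [ArithmeticFunction.mul_apply]
  exact Nat.sum_divisorsAntidiagonal (fun a b => f a * g b)

/-- real version of `cV` -/
noncomputable def cR (V m : ℕ) : ℝ := ∑ d ∈ m.divisors.filter (fun d => d ≤ V ∧ m / d ≤ V),
  ((ArithmeticFunction.moebius d : ℤ) : ℝ) * ArithmeticFunction.vonMangoldt (m / d)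

theorem cR_eq (V m : ℕ) : (lo muR V * lo LamR V) m = cR V m := by
  rw [conv_apply, cR, Finset.sum_filter]
  refine Finset.sum_congr rfl fun d _ => ?_
  rw [lo_apply, lo_apply]
  by_cases h1 : d ≤ V
  · by_cases h2 : m / d ≤ V
    · rw [if_pos h1, if_pos h2, if_pos ⟨h1, h2⟩]
      rfl
    · rw [if_pos h1, if_neg h2, if_neg (fun h => h2 h.2), mul_zero]
  · rw [if_neg h1, zero_mul, if_neg (fun h => h1 h.1)]

theorem cR_zero (V m : ℕ) (h : V * V < m) : cR V m = 0 := by
  rw [cR, Finset.sum_filter]
  refine Finset.sum_eq_zero fun d hd => ?_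
  rw [if_neg]
  rintro ⟨h1, h2⟩
  have h3 : d * (m / d) = m := Nat.mul_div_cancel' (Nat.dvd_of_mem_divisors hd)
  have h4 := Nat.mul_le_mul h1 h2
  omega

theorem cV_eq (V m : ℕ) : cV V m = ((cR V m : ℝ) : ℂ) := by
  unfold cV cR
  push_cast
  rfl

/-- real version of `bV` -/
noncomputable def bR (V n : ℕ) : ℝ := ∑ d ∈ n.divisors.filter (fun d => V < d),
  ((ArithmeticFunction.moebius d : ℤ) : ℝ) *
    ∑ k ∈ (n / d).divisors.filter (fun k => V < k), ArithmeticFunction.vonMangoldt k

theorem bV_eq (V n : ℕ) : bV V n = ((bR V n : ℝ) : ℂ) := by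
  unfold bV bR
  push_cast
  rfl

open ArithmeticFunction in
theorem bR_eq (V n : ℕ) : (hi muR V * (hi LamR V * (zeta : ArithmeticFunction ℝ))) n = bR V n := by
  rw [conv_apply, bR, Finset.sum_filter]
  refine Finset.sum_congr rfl fun d _ => ?_
  rw [hi_apply]
  by_cases h1 : V < d
  · rw [if_pos h1, if_pos h1]
    congr 1
    rw [coe_mul_zeta_apply, Finset.sum_filter]
    rfl
  · rw [if_neg h1, if_neg h1, zero_mul]

theorem s_VAU : S_VAU := by
  constructor
  · intro V n hV hn
    have h0 := congrArg (fun f : ArithmeticFunction ℝ => f n) (vau0 V)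
    simp only [ArithmeticFunction.add_apply] at h0
    rw [bR_eq, ArithmeticFunction.coe_mul_zeta_apply, lo_apply, if_neg (by omega)] at h0
    have h1 : (lo muR V * ArithmeticFunction.log) n =
        ∑ d ∈ n.divisors.filter (fun d => d ≤ V),
          ((ArithmeticFunction.moebius d : ℤ) : ℝ) * Real.log ((n / d : ℕ) : ℝ) := by
      rw [conv_apply, Finset.sum_filter]
      refine Finset.sum_congr rfl fun d _ => ?_
      rw [lo_apply]
      split_ifs
      · rfl
      · rw [zero_mul]
    have h2 : ∑ m ∈ n.divisors, (lo muR V * lo LamR V) m =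
        ∑ m ∈ n.divisors.filter (fun m => m ≤ V * V), cR V m := by
      rw [Finset.sum_filter]
      refine Finset.sum_congr rfl fun m _ => ?_
      rw [cR_eq]
      split_ifs with h
      · rfl
      · exact cR_zero V m (by omega)
    rw [h1, h2, zero_add] at h0
    have h0' : ArithmeticFunction.vonMangoldt n = (∑ d ∈ n.divisors.filter (fun d => d ≤ V),
          ((ArithmeticFunction.moebius d : ℤ) : ℝ) * Real.log ((n / d : ℕ) : ℝ)) -
            ∑ m ∈ n.divisors.filter (fun m => m ≤ V * V), cR V m + bR V n := by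
      linarith
    have h3 : ((ArithmeticFunction.vonMangoldt n : ℝ) : ℂ) = (((∑ d ∈ n.divisors.filter (fun d => d ≤ V),
          ((ArithmeticFunction.moebius d : ℤ) : ℝ) * Real.log ((n / d : ℕ) : ℝ)) -
            ∑ m ∈ n.divisors.filter (fun m => m ≤ V * V), cR V m + bR V n : ℝ) : ℂ) := by
      rw [← h0']
    rw [h3, bV_eq]
    simp only [cV_eq]
    push_cast
    rfl
  · intro V m hm
    rw [cV_eq, Complex.norm_real, cR]
    refine (norm_sum_le _ _).trans ?_
    have h1 : ∀ d ∈ m.divisors.filter (fun d => d ≤ V ∧ m / d ≤ V),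
        ‖((ArithmeticFunction.moebius d : ℤ) : ℝ) * ArithmeticFunction.vonMangoldt (m / d)‖ ≤
          ArithmeticFunction.vonMangoldt (m / d) := by
      intro d _
      rw [norm_mul, Real.norm_eq_abs, Real.norm_eq_abs,
        abs_of_nonneg (ArithmeticFunction.vonMangoldt_nonneg (n := m / d))]
      have h2 : |((ArithmeticFunction.moebius d : ℤ) : ℝ)| ≤ 1 := by
        exact_mod_cast ArithmeticFunction.abs_moebius_le_one (n := d)
      calc _ ≤ 1 * ArithmeticFunction.vonMangoldt (m / d) :=
            mul_le_mul_of_nonneg_right h2 ArithmeticFunction.vonMangoldt_nonneg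
        _ = _ := one_mul _
    refine (Finset.sum_le_sum h1).trans ?_
    refine (Finset.sum_le_sum_of_subset_of_nonneg (Finset.filter_subset _ _)
      fun d _ _ => ArithmeticFunction.vonMangoldt_nonneg).trans ?_
    rw [Nat.sum_div_divisors m (fun k => ArithmeticFunction.vonMangoldt k),
      ArithmeticFunction.vonMangoldt_sum]

end Pool.Agent.L7h53.MW
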